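import Mathlib
import Pool.Agent.Work.MP_2780b6_an.Final

set_option autoImplicit false

open Polynomial

namespace Pool.Agent.Results.MP_2780b6_an.Q1

/-- `Z_c(p)`: the number of non-real zeros of the real polynomial `p`, counted with multiplicity. -/
noncomputable def nonrealZeros (p : ℝ[X]) : ℕ :=
  Multiset.card ((p.map (algebraMap ℝ ℂ)).roots.filter (fun z => z.im ≠ 0))

/-- A simple set: `q k` has degree exactly `k` for every `k`. -/
def IsSimpleSet (q : ℕ → ℝ[X]) : Prop := ∀ k : ℕ, (q k).degree = (k : WithBot ℕ)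

/-- `γ` is a complex zero decreasing sequence for `q`: replacing every finite expansion
`∑ a k • q k` by `∑ (γ k * a k) • q k` never increases the number of non-real zeros. -/
def IsCZDSFor (q : ℕ → ℝ[X]) (γ : ℕ → ℝ) : Prop :=
  ∀ a : ℕ →₀ ℝ, nonrealZeros (a.sum fun k c => (γ k * c) • q k) ≤
    nonrealZeros (a.sum fun k c => c • q k)

/-- The standard basis is a simple set for which `exp (-k^3)` is a complex zero decreasing
sequence. -/
theorem result :
    IsSimpleSet (fun k => (X : ℝ[X]) ^ k) ∧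
      IsCZDSFor (fun k => (X : ℝ[X]) ^ k) (fun k => Real.exp (-(k : ℝ) ^ 3)) := by
  refine ⟨fun k => degree_X_pow k, fun a => ?_⟩
  set γ : ℕ → ℝ := fun k => Real.exp (-(k : ℝ) ^ 3) with hγ
  set p : ℝ[X] := a.sum fun k c => c • (X : ℝ[X]) ^ k with hp
  have hcoeff : ∀ (w : ℕ → ℝ) (j : ℕ),
      (a.sum fun k c => (w k * c) • (X : ℝ[X]) ^ k).coeff j = w j * a j := by
    intro w j
    rw [Finsupp.sum, finsetSum_coeff]
    simp only [coeff_smul, coeff_X_pow, smul_eq_mul, mul_ite, mul_one, mul_zero]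
    rw [Finset.sum_ite_eq]
    split_ifs with h
    · rfl
    · rw [Finsupp.notMem_support_iff.1 h, mul_zero]
  have hcp : ∀ j, p.coeff j = a j := by
    intro j
    have := hcoeff (fun _ => 1) j
    simpa using this
  have hT : (a.sum fun k c => (γ k * c) • (X : ℝ[X]) ^ k) =
      Pool.Agent.Work.MP_2780b6_an.opD γ p := by
    ext j
    rw [hcoeff, Pool.Agent.Work.MP_2780b6_an.coeff_opD, hcp]
  rw [hT]
  exact Pool.Agent.Work.MP_2780b6_an.Zc_opD_le (fun k => Real.exp_pos _)
    (fun k => Pool.Agent.Work.MP_2780b6_an.exp_cubic_ratio k) p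

end Pool.Agent.Results.MP_2780b6_an.Q1
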